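import Pool.Agent.W394.BQN.Stm

set_option autoImplicit false

open Polynomial

noncomputable section

namespace Pool.Agent.W947.BQN

open BQ Pool.Agent.W394.BQN

theorem t_ND (h1 : S_VV) (h2 : S_INT) (h3 : S_QV) (h4 : S_LR) : S_ND := by
  intro V C Ω _ _ _ _ _ _ _ j ι j' hL hj' u hND
  obtain ⟨hu, W, iW, iWd, iWp, i, l, r, hE, hi, hr, hk, hji⟩ := hND
  obtain ⟨i', hi'f, hi'⟩ := h3 V W i hi
  let m1 : MvPolynomial (Fin l) W[X] →+* MvPolynomial (Fin l) (VV W) :=
    MvPolynomial.map (algebraMap W[X] (VV W))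
  let φ : C[X] →+* MvPolynomial (Fin l) (VV W) :=
    m1.comp ((G.phi (Fin l) W).comp (Polynomial.mapRingHom r))
  have hφ : ∀ c, φ c = m1 (G.phi (Fin l) W (c.map r)) := fun c => rfl
  have hA : ∀ f : V[X], φ (f.map j) = MvPolynomial.C (algebraMap W[X] (VV W) (f.map i)) := by
    intro f
    have e1 : (f.map j).map r = (f.map i).map (MvPolynomial.C : W →+* MvPolynomial (Fin l) W) := by
      rw [Polynomial.map_map, Polynomial.map_map]
      congr 1
      ext v
      simp only [RingHom.comp_apply]
      rw [hji]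
    rw [hφ, e1, G.phi_map]
    exact MvPolynomial.map_C _ _
  have hunit : ∀ f ∈ S2 V, IsUnit (φ (f.map j)) := by
    intro f hf
    rw [hA, ← hi']
    exact ((IsLocalization.map_units (VV V) (⟨f, hf⟩ : S2 V)).map i').map MvPolynomial.C
  obtain ⟨r', hr'⟩ := h4 V C Ω j ι hL (MvPolynomial (Fin l) (VV W)) φ hunit
  have hm1 : Function.Injective m1 :=
    MvPolynomial.map_injective _ (IsLocalization.injective (VV W) (BQ.E.S2_le W))
  have hphi : Function.Injective (G.phi (Fin l) W) := by
    apply Function.LeftInverse.injective (g := G.psi (Fin l) W)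
    intro x
    exact RingHom.congr_fun (G.psi_phi (Fin l) W) x
  have hD : ∀ y : MvPolynomial (Fin l) W[X], ∃ c : C[X], φ c = m1 y := by
    intro y
    obtain ⟨c, hc⟩ := Polynomial.map_surjective r hr (G.psi (Fin l) W y)
    refine ⟨c, ?_⟩
    rw [hφ, hc]
    congr 1
    exact RingHom.congr_fun (G.phi_psi (Fin l) W) y
  have hsurj : Function.Surjective r' := by
    intro z
    induction z using MvPolynomial.induction_on with
    | C a =>
      obtain ⟨⟨x, s⟩, hxs⟩ := IsLocalization.surj (S2 W) a
      obtain ⟨g, hg, t, ht⟩ := h2 V W i hi s s.2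
      obtain ⟨c, hc⟩ := hD (MvPolynomial.C (x * t))
      obtain ⟨w, hw⟩ := (hL.unit g hg).exists_right_inv
      refine ⟨w * ι c, ?_⟩
      have e1 : r' (ι (g.map j)) = MvPolynomial.C (algebraMap W[X] (VV W) (g.map i)) := by
        rw [hr', hA]
      have e2 : r' (ι c) = MvPolynomial.C (algebraMap W[X] (VV W) (x * t)) := by
        rw [hr', hc]
        exact MvPolynomial.map_C _ _
      have e3 : algebraMap W[X] (VV W) (x * t) = algebraMap W[X] (VV W) (g.map i) * a := by
        have hxs' : a * algebraMap W[X] (VV W) (s : W[X]) = algebraMap W[X] (VV W) x := hxs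
        rw [map_mul, ← hxs', ht, map_mul]
        ring
      rw [map_mul, e2, e3, map_mul, ← e1, ← mul_assoc, ← map_mul, mul_comm w, hw, map_one,
        one_mul]
    | add p q hp hq =>
      obtain ⟨a, ha⟩ := hp
      obtain ⟨b, hb⟩ := hq
      exact ⟨a + b, by rw [map_add, ha, hb]⟩
    | mul_X p n hp =>
      obtain ⟨a, ha⟩ := hp
      obtain ⟨c, hc⟩ := hD (MvPolynomial.X n)
      refine ⟨a * ι c, ?_⟩
      rw [map_mul, ha, hr', hc]
      congr 1
      exact MvPolynomial.map_X _ _
  have hCu : ι (Polynomial.C u) ≠ 0 := by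
    intro h
    apply hu
    have h5 := hL.inj (h.trans (map_zero ι).symm)
    exact Polynomial.C_eq_zero.1 h5
  refine ⟨hCu, VV W, inferInstance, inferInstance, inferInstance, i', l, r', h1 W hE, hi'f, hsurj,
    ?_, ?_⟩
  · intro z
    constructor
    · intro hz
      obtain ⟨f, hf, c, hc⟩ := hL.frac z
      have h5 : φ c = 0 := by
        rw [← hr', ← hc, map_mul, hz, mul_zero]
      have h6 : c.map r = 0 := by
        apply hphi
        apply hm1
        rw [← hφ, h5, map_zero, map_zero]
      have h7 : Polynomial.C u ∣ c := by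
        rw [Polynomial.C_dvd_iff_dvd_coeff]
        intro n
        rw [← hk, ← Polynomial.coeff_map, h6, Polynomial.coeff_zero]
      obtain ⟨w, hw⟩ := (hL.unit f hf).exists_right_inv
      have h8 : z = w * ι c := by
        rw [← hc, ← mul_assoc, mul_comm w, hw, one_mul]
      rw [h8]
      exact Dvd.dvd.mul_left (map_dvd ι h7) w
    · rintro ⟨t, rfl⟩
      have h5 : φ (Polynomial.C u) = 0 := by
        rw [hφ, Polynomial.map_C, (hk u).2 dvd_rfl, map_zero, map_zero, map_zero]
      rw [map_mul, hr', h5, zero_mul]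
  · have h5 : r'.comp j' = (MvPolynomial.C : VV W →+* MvPolynomial (Fin l) (VV W)).comp i' := by
      apply IsLocalization.ringHom_ext (S2 V)
      refine RingHom.ext fun f => ?_
      simp only [RingHom.comp_apply]
      rw [hj', hr', hA, hi']
    intro v
    exact RingHom.congr_fun h5 v

end Pool.Agent.W947.BQN

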